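import Mathlib
import Pool.Agent.R658.NV.Defs
import Pool.Agent.R658.NV.Flag
import Pool.Agent.R658.NV.XMem
import Pool.Agent.R658.NV.Card

/-!
# MP_e0acc1_al: the dimension of the variety of nilpotent (A,C)-commutative n-ary algebras

The definitions (`NAlg`, `ACComm`, `IsMonomial`, `Nilpotent`, `X`, `coords`, `varDim`) are in
`Pool.Agent.R658.NV.Defs`.
-/

namespace Pool.Agent.Results.MP_e0acc1_al.Dimension

open R658.NV

theorem result (n k : ℕ) (hn : 2 ≤ n) (_hk : 1 ≤ k) (A C : Finset (Fin n))
    (hAC : Disjoint A C) :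
    varDim (coords '' X n k A C) =
      ((∑ m ∈ Finset.range k,
          m.choose A.card * m.multichoose C.card * m ^ (n - A.card - C.card) +
        (k.choose 2 - A.card.choose 2) : ℕ) : WithBot ℕ∞) := by
  rw [stmtFlag n k A C, dim_set A C (by omega) hAC, card_T1, stmtCard n k A C hAC, cardW, add_comm]

end Pool.Agent.Results.MP_e0acc1_al.Dimension
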